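import Pool.Agent.Y502.OM.Comp

/-!
# `Ω_C` is not computable in `Ω_b` and a Borel functional, and is computable in `Ω_b` and another
functional of type `2`

`Dom σ` is the set of the monotone functionals of type `σ`, `Term Γ σ` the set of the terms of
Platek's typed lambda calculus with free variables of the types in `Γ`, `eval` their
interpretation (`Pool.Agent.H904R3.Defs`). `Omega 𝒞` is the functional defined exactly on the sets
in the class `𝒞` of subsets of Cantor space (given by their total characteristic functions), which
takes the value `0` if the set is empty and `1` if it is not; `OmegaB` is the case of the sets with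
at most one element, `OmegaC` the case of the closed sets; `ex2` is Kleene's quantifier `∃²`;
`tot2 F` is the functional `F` of type `2` (defined exactly on the total functions), `chi R` the
characteristic functional of the relation `R` on Cantor space, and `WO R` the class of the sets on
which `R` is a well-order.
-/

set_option autoImplicit false

namespace Pool.Agent.Results.MP_242061_lc.WellOrderedSets

open Pool.Agent.H904R3 Pool.Agent.Y502.OM MeasureTheory

/-- The functional `ψ` is computable in the functionals in the list `ρ`: it is extended by the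
value of some term whose free variables stand for the functionals in `ρ`. -/
def ComputableIn {Γ : List Ty} {σ : Ty} (ψ : Dom σ) (ρ : Env Γ) : Prop :=
  ∃ s : Term Γ σ, ψ ≤ eval s ρ

/-- The lexicographic order of Cantor space. -/
def lex (x y : Cantor) : Prop := ∃ n, (∀ m < n, x m = y m) ∧ x n = false ∧ y n = true

theorem measurable_lex : MeasurableSet {p : Cantor × Cantor | lex p.1 p.2} := by
  have h1 : {p : Cantor × Cantor | lex p.1 p.2} = ⋃ n : ℕ,
      ((⋂ m : ℕ, {p : Cantor × Cantor | m < n → p.1 m = p.2 m}) ∩
        ({p : Cantor × Cantor | p.1 n = false} ∩ {p : Cantor × Cantor | p.2 n = true})) := by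
    ext p
    simp only [Set.mem_iUnion, Set.mem_inter_iff, Set.mem_iInter]
    rfl
  have hx : ∀ n : ℕ, Measurable fun p : Cantor × Cantor => p.1 n := fun n =>
    (measurable_pi_apply n).comp measurable_fst
  have hy : ∀ n : ℕ, Measurable fun p : Cantor × Cantor => p.2 n := fun n =>
    (measurable_pi_apply n).comp measurable_snd
  rw [h1]
  refine MeasurableSet.iUnion fun n => ?_
  refine (MeasurableSet.iInter fun m => ?_).inter
    ((hx n (measurableSet_singleton false)).inter (hy n (measurableSet_singleton true)))
  by_cases hmn : m < n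
  · have : {p : Cantor × Cantor | m < n → p.1 m = p.2 m} = {p | p.1 m = p.2 m} := by
      ext p
      exact ⟨fun h => h hmn, fun h _ => h⟩
    rw [this]
    exact measurableSet_eq_fun (hx m) (hy m)
  · have : {p : Cantor × Cantor | m < n → p.1 m = p.2 m} = Set.univ := by
      ext p
      exact ⟨fun _ => trivial, fun _ h => absurd h hmn⟩
    rw [this]
    exact MeasurableSet.univ

theorem lex_tri (x y : Cantor) : lex x y ∨ x = y ∨ lex y x := by
  classical
  by_cases h : x = y
  · exact Or.inr (Or.inl h)
  have h1 : ∃ n, x n ≠ y n := by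
    by_contra hc
    push Not at hc
    exact h (funext hc)
  have h2 := Nat.find_spec h1
  have h3 : ∀ m < Nat.find h1, x m = y m := fun m hm => by
    by_contra hc
    exact Nat.find_min h1 hm hc
  cases hx : x (Nat.find h1)
  · left
    refine ⟨_, h3, hx, ?_⟩
    cases hy : y (Nat.find h1)
    · rw [hx, hy] at h2; exact absurd rfl h2
    · rfl
  · right; right
    refine ⟨_, fun m hm => (h3 m hm).symm, ?_, hx⟩
    cases hy : y (Nat.find h1)
    · rfl
    · rw [hx, hy] at h2; exact absurd rfl h2

theorem lex_irrefl (x : Cantor) : ¬ lex x x := by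
  rintro ⟨n, _, h1, h2⟩
  rw [h1] at h2
  exact absurd h2 Bool.false_ne_true

theorem lex_trans {x y z : Cantor} (h1 : lex x y) (h2 : lex y z) : lex x z := by
  obtain ⟨n, hn1, hn2, hn3⟩ := h1
  obtain ⟨m, hm1, hm2, hm3⟩ := h2
  rcases lt_trichotomy n m with h | h | h
  · exact ⟨n, fun k hk => (hn1 k hk).trans (hm1 k (hk.trans h)), hn2, (hm1 n h) ▸ hn3⟩
  · subst h
    rw [hn3] at hm2
    exact absurd hm2 Bool.true_eq_false_eq_False.elim
  · exact ⟨m, fun k hk => (hn1 k (hk.trans h)).trans (hm1 k hk), (hn1 m h).trans hm2, hm3⟩

/-- Finite sets are well-ordered lexicographically. -/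
theorem finite_sub_WO : {X : Set Cantor | X.Finite} ⊆ WO lex := by
  intro X hX
  have : IsStrictOrder Cantor lex :=
    { irrefl := lex_irrefl, trans := fun _ _ _ => lex_trans }
  exact ⟨Set.Finite.wellFoundedOn hX, fun x _ y _ => lex_tri x y⟩

/-- **Main theorem.**
(1) `Ω_C` is not computable in `Ω_b` and `∃²`.
(2) Let `R` be a Borel relation on Cantor space, `𝒞` a class of sets all of which are well-ordered
by `R`, and `G` a Borel functional of type `2`. Then `Ω_C` is not computable in the functional
`Omega 𝒞` and `G`.
(3) In particular this holds for the class of all finite sets.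
(4) For every relation `R` the functional deciding emptiness of all sets which are well-ordered by
`R` is computable in `Ω_b` and the characteristic functional of `R`.
(5) There is a functional `F` of type `2` such that, for every class `𝒞` of subsets of Cantor
space, `Omega 𝒞` (in particular `Ω_C` and Kleene's `∃³` restricted to characteristic functions)
is computable in `Ω_b` and `F`. -/
theorem result :
    ¬ ComputableIn OmegaC (ext OmegaB (ext ex2 empt)) ∧
    (∀ R : Cantor → Cantor → Prop, MeasurableSet {p : Cantor × Cantor | R p.1 p.2} →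
      ∀ G : (ℕ → ℕ) → ℕ, Measurable G → ∀ 𝒞 : Set (Set Cantor), 𝒞 ⊆ WO R →
        ¬ ComputableIn OmegaC (ext (Omega 𝒞) (ext (tot2 G) empt))) ∧
    (∀ G : (ℕ → ℕ) → ℕ, Measurable G →
      ¬ ComputableIn OmegaC (ext (Omega {X | X.Finite}) (ext (tot2 G) empt))) ∧
    (∀ R : Cantor → Cantor → Prop,
      ComputableIn (Omega (WO R)) (ext OmegaB (ext (tot2 (chi R)) empt))) ∧
    ∃ F : (ℕ → ℕ) → ℕ, ∀ 𝒞 : Set (Set Cantor),
      ComputableIn (Omega 𝒞) (ext OmegaB (ext (tot2 F) empt)) := by
  refine ⟨?_, ?_, ?_, ?_, ?_⟩
  · rintro ⟨s, hs⟩
    exact main s hs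
  · rintro R hR G hG 𝒞 h𝒞 ⟨s, hs⟩
    exact not_computable_WO hR hG h𝒞 s hs
  · rintro G hG ⟨s, hs⟩
    exact not_computable_WO measurable_lex hG finite_sub_WO s hs
  · exact fun R => ⟨tm, omega_WO_le R⟩
  · obtain ⟨F, hF⟩ := omega_univ_le
    exact ⟨F, fun 𝒞 => ⟨tm, le_trans (omega_mono (Set.subset_univ 𝒞)) hF⟩⟩

end Pool.Agent.Results.MP_242061_lc.WellOrderedSets
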